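import Pool.Agent.W93.GB4
import Pool.Agent.W93.GB1
import Pool.Agent.W93.LV2

/-!
Goldbach representations of multiples of `q`: for almost all `q`, at all scales simultaneously.
-/

set_option autoImplicit false

namespace Pool.Agent.V1137.AM

open Finset Filter
open Pool.Agent.H560R3.GB
open Pool.Agent.W93.GB (Good)

open Classical in
/-- the even exceptional integers up to `N` -/
noncomputable def F (ε : ℝ) (N : ℕ) : Finset ℕ := (Icc 1 N).filter (fun n => 2 ∣ n ∧ ¬ Good ε n)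

theorem mem_F {ε : ℝ} {N n : ℕ} : n ∈ F ε N ↔ (1 ≤ n ∧ n ≤ N) ∧ 2 ∣ n ∧ ¬ Good ε n := by
  classical
  unfold F
  rw [mem_filter, mem_Icc]

open Classical in
/-- few exceptional integers -/
theorem exc (ε : ℝ) (hε : 0 < ε) (U : ℕ) : ∃ N₀ : ℕ, ∀ N : ℕ, N₀ ≤ N →
    ((F ε N).card : ℝ) ≤ N / Real.log N ^ U := by
  obtain ⟨N₀, h⟩ := Pool.Agent.W93.GB.fam 1 2 0 U le_rfl ε hε
  refine ⟨max N₀ 1, fun N hN => ?_⟩
  have h1 := h N ((le_max_left _ _).trans hN) N (fun m => 2 * m) (by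
    intro m hm
    rw [mem_Icc] at hm
    exact ⟨by show 2 * m ≤ 2 * N; omega, ⟨m, rfl⟩⟩) (by
    have he : energy 1 N (fun m => 2 * m) ≤ N := by
      unfold energy
      have : ((Fintype.piFinset fun _ : Fin 1 => Icc 1 N) ×ˢ (Fintype.piFinset fun _ : Fin 1 => Icc 1 N)).filter
          (fun q => ∑ i, 2 * (q.1 i) = ∑ i, 2 * (q.2 i)) ⊆
          (Icc 1 N).image (fun n => ((fun _ => n, fun _ => n) : (Fin 1 → ℕ) × (Fin 1 → ℕ))) := by
        rintro ⟨u, v⟩ huv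
        rw [mem_filter, mem_product] at huv
        simp only [Fintype.mem_piFinset, Finset.univ_unique, Fin.default_eq_zero, sum_singleton] at huv
        rw [mem_image]
        refine ⟨u 0, huv.1.1 0, ?_⟩
        rw [Prod.mk.injEq]
        constructor
        · ext i; rw [Subsingleton.elim i 0]
        · ext i; rw [Subsingleton.elim i 0]; omega
      refine (card_le_card this).trans (card_image_le.trans ?_)
      rw [Nat.card_Icc]; omega
    rw [pow_zero, one_mul]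
    have : (energy 1 N (fun m => 2 * m) : ℝ) ≤ N := by exact_mod_cast he
    calc (energy 1 N (fun m => 2 * m) : ℝ) * N ≤ N * N := mul_le_mul_of_nonneg_right this (by positivity)
      _ = (N : ℝ) ^ (2 * 1) := by ring)
    ((Icc 1 N).filter (fun m => ¬ Good ε (2 * m))) (filter_subset _ _) (by
    intro m hm
    exact (mem_filter.1 hm).2)
  refine le_trans ?_ h1
  have hinj : (F ε N).card ≤ ((Icc 1 N).filter (fun m => ¬ Good ε (2 * m))).card := by
    refine card_le_card_of_injOn (fun n => n / 2) ?_ ?_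
    · intro n hn
      obtain ⟨⟨h1, h2⟩, ⟨m, hm⟩, h4⟩ := mem_F.1 (mem_coe.1 hn)
      have e : n / 2 = m := by omega
      rw [mem_coe, mem_filter, mem_Icc]
      show (1 ≤ n / 2 ∧ n / 2 ≤ N) ∧ ¬ Good ε (2 * (n / 2))
      rw [e, ← hm]
      exact ⟨⟨by omega, by omega⟩, h4⟩
    · intro n hn n' hn' he
      obtain ⟨_, ⟨m, hm⟩, _⟩ := mem_F.1 (mem_coe.1 hn)
      obtain ⟨_, ⟨m', hm'⟩, _⟩ := mem_F.1 (mem_coe.1 hn')
      have he' : n / 2 = n' / 2 := he
      omega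
  exact_mod_cast hinj

open Classical in
/-- the sum of the numbers of divisors of the exceptional integers -/
theorem sumd (ε : ℝ) (hε : 0 < ε) (V : ℕ) : ∃ N₀ : ℕ, ∀ N : ℕ, N₀ ≤ N →
    (∑ n ∈ F ε N, (n.divisors.card : ℝ)) ≤ 3 * N / Real.log N ^ V := by
  obtain ⟨N₀, h⟩ := exc ε hε (2 * V + 3)
  refine ⟨max N₀ 3, fun N hN => ?_⟩
  have h1 := h N ((le_max_left _ _).trans hN)
  have hN3 : 3 ≤ N := (le_max_right _ _).trans hN
  have hNr : (3 : ℝ) ≤ N := by exact_mod_cast hN3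
  have hL1 : 1 ≤ Real.log N := by
    rw [Real.le_log_iff_exp_le (by linarith)]
    have := Real.exp_one_lt_d9
    linarith
  have hL0 : 0 < Real.log N := by linarith
  have h2 : (∑ n ∈ F ε N, (n.divisors.card : ℝ)) ^ 2 ≤ (F ε N).card * ∑ n ∈ F ε N, (n.divisors.card : ℝ) ^ 2 :=
    sq_sum_le_card_mul_sum_sq
  have h3 : ∑ n ∈ F ε N, (n.divisors.card : ℝ) ^ 2 ≤ N * (1 + Real.log N) ^ 3 := by
    refine le_trans ?_ (Pool.Agent.W93.LV.tau_sq N)
    exact sum_le_sum_of_subset_of_nonneg (filter_subset _ _) fun _ _ _ => by positivity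
  have h4 : (1 + Real.log N) ^ 3 ≤ 8 * Real.log N ^ 3 := by
    calc (1 + Real.log N) ^ 3 ≤ (2 * Real.log N) ^ 3 := pow_le_pow_left₀ (by linarith) (by linarith) 3
      _ = 8 * Real.log N ^ 3 := by ring
  have h5 : (∑ n ∈ F ε N, (n.divisors.card : ℝ)) ^ 2 ≤ (3 * N / Real.log N ^ V) ^ 2 := by
    calc (∑ n ∈ F ε N, (n.divisors.card : ℝ)) ^ 2
        ≤ (N / Real.log N ^ (2 * V + 3)) * (N * (8 * Real.log N ^ 3)) := by
          refine h2.trans (mul_le_mul h1 (h3.trans ?_) (by positivity) (by positivity))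
          exact mul_le_mul_of_nonneg_left h4 (by positivity)
      _ = 8 * N ^ 2 / Real.log N ^ (2 * V) := by
          rw [pow_add]
          field_simp
      _ ≤ 9 * N ^ 2 / Real.log N ^ (2 * V) := by
          apply div_le_div_of_nonneg_right _ (by positivity)
          nlinarith
      _ = (3 * N / Real.log N ^ V) ^ 2 := by
          rw [div_pow, pow_mul']
          ring
  exact (pow_le_pow_iff_left₀ (by positivity) (by positivity) two_ne_zero).1 h5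

open Classical in
/-- the number of exceptional multiples of `q` up to `N` -/
noncomputable def c (ε : ℝ) (N q : ℕ) : ℕ := ((F ε N).filter (fun n => q ∣ n)).card

/-- double counting -/
theorem sum_c (ε : ℝ) (N : ℕ) (S : Finset ℕ) :
    (∑ q ∈ S, (c ε N q : ℝ)) ≤ ∑ n ∈ F ε N, (n.divisors.card : ℝ) := by
  classical
  have h1 : ∀ q ∈ S, (c ε N q : ℝ) = ∑ n ∈ F ε N, (if q ∣ n then (1 : ℝ) else 0) := by
    intro q _
    unfold c
    rw [card_filter]
    push_cast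
    rfl
  rw [sum_congr rfl h1, sum_comm]
  apply sum_le_sum
  intro n hn
  obtain ⟨⟨hn1, _⟩, _⟩ := mem_F.1 hn
  rw [← sum_filter, sum_const, nsmul_eq_mul, mul_one]
  have hsub : S.filter (fun q => q ∣ n) ⊆ n.divisors := by
    intro q hq
    rw [mem_filter] at hq
    rw [Nat.mem_divisors]
    exact ⟨hq.2, by omega⟩
  exact_mod_cast card_le_card hsub

/-- `q` is bad at the level `j` -/
def Bd (ε : ℝ) (C j q : ℕ) : Prop :=
  1 ≤ q ∧ q ≤ 2 ^ (j + 1) ∧ (2 : ℝ) ^ j < c ε (2 ^ (j + 1)) q * q * ((j : ℝ) + 1) ^ C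

/-- the bad moduli -/
def B (ε : ℝ) (C j₀ : ℕ) : Set ℕ := {q | ∃ j, j₀ ≤ j ∧ Bd ε C j q}

theorem log_two_pow (j : ℕ) : ((j : ℝ) + 1) / 2 ≤ Real.log ((2 ^ (j + 1) : ℕ) : ℝ) := by
  push_cast
  rw [Real.log_pow]
  have := Real.log_two_gt_d9
  push_cast
  nlinarith [(Nat.cast_nonneg j : (0 : ℝ) ≤ j)]

open Classical in
/-- the number of moduli up to `X` that are bad at the level `j` -/
theorem card_Bd (ε : ℝ) (hε : 0 < ε) (C A : ℕ) : ∃ K : ℝ, 0 < K ∧ ∃ J : ℕ, ∀ j : ℕ, J ≤ j → ∀ X : ℕ, 1 ≤ X →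
    (((Icc 1 X).filter (fun q => Bd ε C j q)).card : ℝ) ≤ K * X / ((j : ℝ) + 1) ^ A := by
  obtain ⟨N₀, h⟩ := sumd ε hε (C + A)
  refine ⟨6 * 2 ^ (C + A), by positivity, N₀, fun j hj X hX => ?_⟩
  have hNj : N₀ ≤ 2 ^ (j + 1) := by
    have : j + 1 < 2 ^ (j + 1) := Nat.lt_two_pow_self
    omega
  have h1 := h _ hNj
  have hX0 : (0 : ℝ) < X := by exact_mod_cast hX
  have hj1 : (0 : ℝ) < (j : ℝ) + 1 := by positivity
  set S := (Icc 1 X).filter (fun q => Bd ε C j q) with hS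
  have h2 : ∀ q ∈ S, (2 : ℝ) ^ j / (X * ((j : ℝ) + 1) ^ C) ≤ c ε (2 ^ (j + 1)) q := by
    intro q hq
    rw [hS, mem_filter, mem_Icc] at hq
    obtain ⟨⟨hq1, hqX⟩, _, _, hb⟩ := hq
    have hqr : (q : ℝ) ≤ X := by exact_mod_cast hqX
    rw [div_le_iff₀ (by positivity)]
    refine hb.le.trans ?_
    have h3 : (0 : ℝ) ≤ c ε (2 ^ (j + 1)) q := Nat.cast_nonneg _
    calc (c ε (2 ^ (j + 1)) q : ℝ) * q * ((j : ℝ) + 1) ^ C ≤ c ε (2 ^ (j + 1)) q * X * ((j : ℝ) + 1) ^ C := by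
          gcongr
      _ = c ε (2 ^ (j + 1)) q * (X * ((j : ℝ) + 1) ^ C) := by ring
  have h3 := sum_le_sum h2
  rw [sum_const, nsmul_eq_mul] at h3
  have h4 := h3.trans ((sum_c ε _ S).trans h1)
  have h5 : Real.log ((2 ^ (j + 1) : ℕ) : ℝ) ^ (C + A) ≥ (((j : ℝ) + 1) / 2) ^ (C + A) :=
    pow_le_pow_left₀ (by positivity) (log_two_pow j) _
  have h6 : 3 * ((2 ^ (j + 1) : ℕ) : ℝ) / Real.log ((2 ^ (j + 1) : ℕ) : ℝ) ^ (C + A) ≤
      3 * (2 * 2 ^ j) / (((j : ℝ) + 1) / 2) ^ (C + A) := by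
    have e : ((2 ^ (j + 1) : ℕ) : ℝ) = 2 * 2 ^ j := by push_cast; ring
    rw [e] at h5 ⊢
    exact div_le_div_of_nonneg_left (by positivity) (by positivity) h5
  have h7 := h4.trans h6
  have h8 : (S.card : ℝ) * (2 ^ j / (X * ((j : ℝ) + 1) ^ C)) * ((X * ((j : ℝ) + 1) ^ C) / 2 ^ j) = S.card := by
    field_simp
  rw [← h8]
  calc (S.card : ℝ) * (2 ^ j / (X * ((j : ℝ) + 1) ^ C)) * ((X * ((j : ℝ) + 1) ^ C) / 2 ^ j)
      ≤ 3 * (2 * 2 ^ j) / (((j : ℝ) + 1) / 2) ^ (C + A) * ((X * ((j : ℝ) + 1) ^ C) / 2 ^ j) :=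
        mul_le_mul_of_nonneg_right h7 (by positivity)
    _ = 6 * 2 ^ (C + A) * X / ((j : ℝ) + 1) ^ A := by
        rw [div_pow, pow_add]
        field_simp
        ring

end Pool.Agent.V1137.AM
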