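import Pool.Agent.V1137.AM.A

set_option autoImplicit false

namespace Pool.Agent.V1137.AM

open Finset Filter
open Pool.Agent.H560R3.GB
open Pool.Agent.W93.GB (Good)

theorem ev_log (a : ℝ) (K : ℝ) : ∀ᶠ X : ℕ in atTop, K ≤ Real.log X ∧ a * Real.log (Real.log X) ≤ Real.log X / 2 := by
  have t : Tendsto (fun n : ℕ => Real.log (n : ℝ)) atTop atTop :=
    Real.tendsto_log_atTop.comp tendsto_natCast_atTop_atTop
  have h1 : ∀ᶠ x : ℝ in atTop, a * Real.log x ≤ x / 2 := by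
    have h := Real.isLittleO_log_id_atTop.def (show (0 : ℝ) < 1 / (2 * (|a| + 1)) by positivity)
    filter_upwards [h, eventually_ge_atTop 1] with x hx hx1
    have h2 : |Real.log x| ≤ 1 / (2 * (|a| + 1)) * |x| := by simpa using hx
    rw [abs_of_nonneg (by linarith : (0 : ℝ) ≤ x)] at h2
    calc a * Real.log x ≤ |a * Real.log x| := le_abs_self _
      _ = |a| * |Real.log x| := abs_mul _ _
      _ ≤ (|a| + 1) * (1 / (2 * (|a| + 1)) * x) := by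
          apply mul_le_mul (by linarith) h2 (abs_nonneg _) (by positivity)
      _ = x / 2 := by
          have : (|a| + 1) ≠ 0 := by positivity
          field_simp
  filter_upwards [t.eventually_ge_atTop K, t.eventually h1] with X h2 h3
  exact ⟨h2, h3⟩

theorem sum_sq (T : Finset ℕ) : ∑ j ∈ T, 1 / ((j : ℝ) + 1) ^ 2 ≤ ∑' j : ℕ, 1 / ((j : ℝ) + 1) ^ 2 := by
  have hs : Summable (fun j : ℕ => 1 / ((j : ℝ) + 1) ^ 2) := by
    have h := (summable_nat_add_iff 1).2 (Real.summable_one_div_nat_pow.2 (show 1 < 2 by norm_num))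
    simpa using h
  exact hs.sum_le_tsum T fun j _ => by positivity

open Classical in
/-- the bad moduli have density zero, in a strong form -/
theorem count_B (ε : ℝ) (hε : 0 < ε) (C j₀ A : ℕ) : ∃ X₀ : ℕ, ∀ X : ℕ, X₀ ≤ X →
    (((Icc 1 X).filter (fun q => q ∈ B ε C j₀)).card : ℝ) ≤ X / Real.log X ^ A := by
  obtain ⟨K, hK, J, h⟩ := card_Bd ε hε C (A + 4)
  obtain ⟨S₂, hS₂⟩ : ∃ S₂ : ℝ, S₂ = ∑' j : ℕ, 1 / ((j : ℝ) + 1) ^ 2 := ⟨_, rfl⟩
  have hS0 : 0 ≤ S₂ := by rw [hS₂]; exact tsum_nonneg fun j => by positivity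
  obtain ⟨X₀, hX₀⟩ := eventually_atTop.1 (ev_log ((A : ℝ) + 1) (max (max 2 (K * S₂ * 2 ^ (A + 2) * 2)) (2 * (J + 1))))
  refine ⟨max X₀ 2, fun X hX => ?_⟩
  obtain ⟨h1, h2⟩ := hX₀ X ((le_max_left _ _).trans hX)
  have hX2 : 2 ≤ X := (le_max_right _ _).trans hX
  have hXr : (2 : ℝ) ≤ X := by exact_mod_cast hX2
  have hX0 : (0 : ℝ) < X := by linarith
  set L := Real.log X with hL
  have hL2 : 2 ≤ L := (le_max_left _ _).trans ((le_max_left _ _).trans h1)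
  have hLK : K * S₂ * 2 ^ (A + 2) * 2 ≤ L := (le_max_right _ _).trans ((le_max_left _ _).trans h1)
  have hLJ : 2 * ((J : ℝ) + 1) ≤ L := (le_max_right _ _).trans h1
  have hL0 : 0 < L := by linarith
  obtain ⟨y, hy⟩ : ∃ y : ℝ, y = X / L ^ (A + 1) := ⟨_, rfl⟩
  have hy0 : 0 < y := by rw [hy]; positivity
  have hly : L / 2 ≤ Real.log y := by
    rw [hy, Real.log_div hX0.ne' (by positivity), Real.log_pow, ← hL]
    push_cast
    linarith
  -- the two parts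
  set T1 := (Icc 1 X).filter (fun q : ℕ => (q : ℝ) ≤ y) with hT1
  set T2 := (Icc 1 X).filter (fun q : ℕ => y < q ∧ q ∈ B ε C j₀) with hT2
  have hsub : (Icc 1 X).filter (fun q => q ∈ B ε C j₀) ⊆ T1 ∪ T2 := by
    intro q hq
    rw [mem_filter] at hq
    rw [mem_union, hT1, hT2, mem_filter, mem_filter]
    rcases le_or_gt (q : ℝ) y with h3 | h3
    · exact Or.inl ⟨hq.1, h3⟩
    · exact Or.inr ⟨hq.1, h3, hq.2⟩
  have hc1 : (T1.card : ℝ) ≤ y := by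
    have hs : T1 ⊆ Icc 1 ⌊y⌋₊ := by
      intro q hq
      rw [hT1, mem_filter, mem_Icc] at hq
      rw [mem_Icc]
      exact ⟨hq.1.1, Nat.le_floor hq.2⟩
    have h3 := card_le_card hs
    rw [Nat.card_Icc, Nat.add_sub_cancel] at h3
    calc (T1.card : ℝ) ≤ (⌊y⌋₊ : ℝ) := by exact_mod_cast h3
      _ ≤ y := Nat.floor_le hy0.le
  have hex : ∀ q ∈ T2, ∃ j, j₀ ≤ j ∧ Bd ε C j q := by
    intro q hq
    rw [hT2, mem_filter] at hq
    exact hq.2.2
  choose! lev hlev1 hlev2 using hex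
  set 𝒥 := T2.image lev with h𝒥
  have hlarge : ∀ j ∈ 𝒥, L / 2 ≤ (j : ℝ) + 1 := by
    intro j hj
    rw [h𝒥, mem_image] at hj
    obtain ⟨q, hq, rfl⟩ := hj
    have h3 := (hlev2 q hq).2.1
    have h4 : y < q := by
      rw [hT2, mem_filter] at hq
      exact hq.2.1
    have h5 : y ≤ 2 ^ (lev q + 1) := h4.le.trans (by exact_mod_cast h3)
    have h6 := Real.log_le_log hy0 h5
    rw [Real.log_pow] at h6
    push_cast at h6
    have h7 := Real.log_two_lt_d9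
    have h8 : ((lev q : ℝ) + 1) * Real.log 2 ≤ (lev q : ℝ) + 1 := by
      have : (0 : ℝ) ≤ lev q := Nat.cast_nonneg _
      nlinarith
    linarith
  have hT2sub : T2 ⊆ 𝒥.biUnion (fun j => (Icc 1 X).filter (fun q => Bd ε C j q)) := by
    intro q hq
    rw [mem_biUnion]
    refine ⟨lev q, mem_image_of_mem _ hq, ?_⟩
    rw [mem_filter]
    refine ⟨?_, hlev2 q hq⟩
    rw [hT2, mem_filter] at hq
    exact hq.1
  have hc2 : (T2.card : ℝ) ≤ K * X * (2 / L) ^ (A + 2) * S₂ := by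
    have h3 : (T2.card : ℝ) ≤ ∑ j ∈ 𝒥, (((Icc 1 X).filter (fun q => Bd ε C j q)).card : ℝ) := by
      exact_mod_cast (card_le_card hT2sub).trans card_biUnion_le
    refine h3.trans ?_
    have h4 : ∀ j ∈ 𝒥, (((Icc 1 X).filter (fun q => Bd ε C j q)).card : ℝ) ≤
        K * X * (2 / L) ^ (A + 2) * (1 / ((j : ℝ) + 1) ^ 2) := by
      intro j hj
      have hj1 := hlarge j hj
      have hj0 : (0 : ℝ) < (j : ℝ) + 1 := by positivity
      have hJj : J ≤ j := by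
        have : ((J : ℝ) + 1) ≤ (j : ℝ) + 1 := by linarith
        have : (J : ℝ) ≤ j := by linarith
        exact_mod_cast this
      refine (h j hJj X (by omega)).trans ?_
      have e : K * X / ((j : ℝ) + 1) ^ (A + 4) = K * X * (1 / ((j : ℝ) + 1)) ^ (A + 2) * (1 / ((j : ℝ) + 1) ^ 2) := by
        rw [show A + 4 = (A + 2) + 2 by ring, pow_add, one_div_pow]
        field_simp
      rw [e]
      have h5 : 1 / ((j : ℝ) + 1) ≤ 2 / L := by
        rw [div_le_div_iff₀ hj0 hL0]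
        linarith
      gcongr
    refine (sum_le_sum h4).trans ?_
    rw [← mul_sum, hS₂]
    exact mul_le_mul_of_nonneg_left (sum_sq 𝒥) (by positivity)
  have hcard : (((Icc 1 X).filter (fun q => q ∈ B ε C j₀)).card : ℝ) ≤ T1.card + T2.card := by
    exact_mod_cast (card_le_card hsub).trans (card_union_le _ _)
  refine hcard.trans ((add_le_add hc1 hc2).trans ?_)
  have e1 : y = (X / L ^ A) * (1 / L) := by
    rw [hy, pow_succ]
    field_simp
  have e2 : K * X * (2 / L) ^ (A + 2) * S₂ = (X / L ^ A) * (K * S₂ * 2 ^ (A + 2) / L ^ 2) := by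
    rw [div_pow, pow_add L A 2]
    field_simp
  rw [e1, e2, ← mul_add]
  have h6 : 1 / L ≤ 1 / 2 := one_div_le_one_div_of_le (by norm_num) hL2
  have h7 : K * S₂ * 2 ^ (A + 2) / L ^ 2 ≤ 1 / 2 := by
    rw [div_le_iff₀ (by positivity)]
    nlinarith
  calc (X / L ^ A) * (1 / L + K * S₂ * 2 ^ (A + 2) / L ^ 2) ≤ (X / L ^ A) * 1 :=
        mul_le_mul_of_nonneg_left (by linarith) (by positivity)
    _ = X / L ^ A := mul_one _

/-- the small moduli are not bad -/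
theorem small_B (ε : ℝ) (hε : 0 < ε) (C K : ℕ) : ∃ J : ℕ, ∀ j₀ : ℕ, J ≤ j₀ → ∀ q ∈ B ε C j₀, K < q := by
  obtain ⟨N₀, h⟩ := exc ε hε (C + 1)
  refine ⟨max N₀ (2 ^ (C + 2) * K), fun j₀ hj₀ q hq => ?_⟩
  by_contra hcon
  push Not at hcon
  obtain ⟨j, hj, hq1, _, hb⟩ := hq
  have hjN : N₀ ≤ 2 ^ (j + 1) := by
    have h1 : j + 1 < 2 ^ (j + 1) := Nat.lt_two_pow_self
    have h2 := (le_max_left _ _).trans (hj₀.trans hj)
    omega
  have hjK : (2 : ℝ) ^ (C + 2) * K ≤ j := by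
    have := (le_max_right _ _).trans (hj₀.trans hj)
    exact_mod_cast this
  have h1 := h _ hjN
  have hj1 : (0 : ℝ) < (j : ℝ) + 1 := by positivity
  have h5 : Real.log ((2 ^ (j + 1) : ℕ) : ℝ) ^ (C + 1) ≥ (((j : ℝ) + 1) / 2) ^ (C + 1) :=
    pow_le_pow_left₀ (by positivity) (log_two_pow j) _
  have h6 : ((2 ^ (j + 1) : ℕ) : ℝ) / Real.log ((2 ^ (j + 1) : ℕ) : ℝ) ^ (C + 1) ≤
      (2 * 2 ^ j) / (((j : ℝ) + 1) / 2) ^ (C + 1) := by
    have e : ((2 ^ (j + 1) : ℕ) : ℝ) = 2 * 2 ^ j := by push_cast; ring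
    rw [e] at h5 ⊢
    exact div_le_div_of_nonneg_left (by positivity) (by positivity) h5
  have h7 : (c ε (2 ^ (j + 1)) q : ℝ) ≤ (F ε (2 ^ (j + 1))).card := by
    unfold c
    exact_mod_cast card_filter_le _ _
  have hqK : (q : ℝ) ≤ K := by exact_mod_cast hcon
  have h8 : (c ε (2 ^ (j + 1)) q : ℝ) * q * ((j : ℝ) + 1) ^ C ≤
      (2 * 2 ^ j) / (((j : ℝ) + 1) / 2) ^ (C + 1) * K * ((j : ℝ) + 1) ^ C := by
    have h9 := h7.trans (h1.trans h6)
    have h10 : (0 : ℝ) ≤ c ε (2 ^ (j + 1)) q := Nat.cast_nonneg _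
    gcongr
  have h11 : (2 * 2 ^ j) / (((j : ℝ) + 1) / 2) ^ (C + 1) * K * ((j : ℝ) + 1) ^ C =
      2 ^ j * (2 ^ (C + 2) * K / ((j : ℝ) + 1)) := by
    rw [div_pow, pow_succ ((j : ℝ) + 1) C]
    field_simp
    ring
  rw [h11] at h8
  have h12 : 2 ^ (C + 2) * (K : ℝ) / ((j : ℝ) + 1) ≤ 1 := by
    rw [div_le_one hj1]
    linarith
  have h13 : (2 : ℝ) ^ j * (2 ^ (C + 2) * K / ((j : ℝ) + 1)) ≤ 2 ^ j * 1 :=
    mul_le_mul_of_nonneg_left h12 (by positivity)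
  linarith

/-- the exceptional multiples of `q` up to `x` -/
def E (ε x : ℝ) (q : ℕ) : Set ℕ := {n : ℕ | 0 < n ∧ (n : ℝ) ≤ x ∧ 2 ∣ n ∧ q ∣ n ∧ ¬ Good ε n}

/-- the other moduli are good at all scales -/
theorem good_q {ε : ℝ} {C j₀ q : ℕ} (hj₀ : 1 ≤ j₀) (hq : 1 ≤ q) (hqB : q ∉ B ε C j₀) {x : ℝ}
    (hx : (2 : ℝ) ^ j₀ ≤ x) (hqx : (q : ℝ) ≤ x) :
    (E ε x q).Finite ∧ ((E ε x q).ncard : ℝ) ≤ x / (q * Real.log x ^ C) := by
  have hx2 : 2 ≤ x := by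
    refine le_trans ?_ hx
    calc (2 : ℝ) = 2 ^ 1 := (pow_one _).symm
      _ ≤ 2 ^ j₀ := pow_le_pow_right₀ (by norm_num) hj₀
  have hx0 : 0 < x := by linarith
  obtain ⟨j, hj⟩ : ∃ j, j = Nat.log 2 ⌊x⌋₊ := ⟨_, rfl⟩
  have hfl : ⌊x⌋₊ ≠ 0 := by
    have : 2 ≤ ⌊x⌋₊ := Nat.le_floor (by exact_mod_cast hx2)
    omega
  have h1 : 2 ^ j ≤ ⌊x⌋₊ := by rw [hj]; exact Nat.pow_log_le_self 2 hfl
  have h2 : ⌊x⌋₊ < 2 ^ (j + 1) := by rw [hj]; exact Nat.lt_pow_succ_log_self (by norm_num) _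
  have hj0 : j₀ ≤ j := by
    rw [hj]
    apply Nat.le_log_of_pow_le (by norm_num)
    exact Nat.le_floor (by exact_mod_cast hx)
  have h2jx : (2 : ℝ) ^ j ≤ x := by
    calc (2 : ℝ) ^ j = ((2 ^ j : ℕ) : ℝ) := by push_cast; ring
      _ ≤ (⌊x⌋₊ : ℝ) := by exact_mod_cast h1
      _ ≤ x := Nat.floor_le hx0.le
  have hx2j : x < 2 ^ (j + 1) := by
    calc x < ⌊x⌋₊ + 1 := Nat.lt_floor_add_one x
      _ ≤ ((2 ^ (j + 1) : ℕ) : ℝ) := by exact_mod_cast h2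
      _ = 2 ^ (j + 1) := by push_cast; ring
  have hqj : q ≤ 2 ^ (j + 1) := by
    have : (q : ℝ) < 2 ^ (j + 1) := lt_of_le_of_lt hqx hx2j
    have : q < 2 ^ (j + 1) := by exact_mod_cast this
    omega
  have hlog : Real.log x ≤ (j : ℝ) + 1 := by
    have h3 := Real.log_le_log hx0 hx2j.le
    rw [Real.log_pow] at h3
    push_cast at h3
    have h4 := Real.log_two_lt_d9
    have h5 : (0 : ℝ) ≤ j := Nat.cast_nonneg _
    nlinarith
  have hlog0 : 0 < Real.log x := Real.log_pos (by linarith)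
  have hnb : (c ε (2 ^ (j + 1)) q : ℝ) * q * ((j : ℝ) + 1) ^ C ≤ 2 ^ j := by
    by_contra hcon
    push Not at hcon
    exact hqB ⟨j, hj0, hq, hqj, hcon⟩
  classical
  have hsub : E ε x q ⊆ (((F ε (2 ^ (j + 1))).filter (fun n => q ∣ n) : Finset ℕ) : Set ℕ) := by
    rintro n ⟨g1, g2, g3, g4, g5⟩
    rw [mem_coe, mem_filter, mem_F]
    have h6 : (n : ℝ) < 2 ^ (j + 1) := lt_of_le_of_lt g2 hx2j
    have h7 : n < 2 ^ (j + 1) := by exact_mod_cast h6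
    exact ⟨⟨⟨g1, h7.le⟩, g3, g5⟩, g4⟩
  refine ⟨(Finset.finite_toSet _).subset hsub, ?_⟩
  have h8 : ((E ε x q).ncard : ℝ) ≤ c ε (2 ^ (j + 1)) q := by
    have h9 := Set.ncard_le_ncard hsub (Finset.finite_toSet _)
    rw [Set.ncard_coe_finset] at h9
    unfold c
    exact_mod_cast h9
  have hq0 : (0 : ℝ) < q := by exact_mod_cast hq
  have hj1 : (0 : ℝ) < (j : ℝ) + 1 := by positivity
  calc ((E ε x q).ncard : ℝ) ≤ c ε (2 ^ (j + 1)) q := h8
    _ ≤ 2 ^ j / (q * ((j : ℝ) + 1) ^ C) := by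
        rw [le_div_iff₀ (by positivity)]
        calc (c ε (2 ^ (j + 1)) q : ℝ) * (q * ((j : ℝ) + 1) ^ C) = c ε (2 ^ (j + 1)) q * q * ((j : ℝ) + 1) ^ C := by ring
          _ ≤ 2 ^ j := hnb
    _ ≤ x / (q * Real.log x ^ C) := by
        apply div_le_div₀ hx0.le h2jx (by positivity)
        exact mul_le_mul_of_nonneg_left (pow_le_pow_left₀ hlog0.le hlog C) hq0.le

end Pool.Agent.V1137.AM
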